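import Mathlib

/-! From a positive proportion of the tuples of integers to a positive proportion of the tuples of
Oppermann intervals. -/

set_option autoImplicit false

namespace Pool.Agent.Helper69.OP

open Finset

/-- the index of the Oppermann interval of `n` -/
def idx (n : ℕ) : ℕ := Nat.sqrt (4 * n - 1)

theorem idx_lt {n : ℕ} (hn : 1 ≤ n) : idx n ^ 2 / 4 < n := by
  have h1 : idx n * idx n ≤ 4 * n - 1 := Nat.sqrt_le _
  rw [Nat.div_lt_iff_lt_mul (by norm_num), sq]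
  omega

theorem le_idx {n : ℕ} (hn : 1 ≤ n) : n ≤ (idx n + 1) ^ 2 / 4 := by
  have h1 : 4 * n - 1 < (idx n + 1) * (idx n + 1) := Nat.lt_succ_sqrt _
  rw [Nat.le_div_iff_mul_le (by norm_num), sq]
  omega

theorem idx_pos {n : ℕ} (hn : 1 ≤ n) : 1 ≤ idx n := by
  unfold idx
  rw [Nat.one_le_iff_ne_zero]
  intro h
  have := Nat.sqrt_eq_zero.1 h
  omega

theorem idx_le {n M : ℕ} (hM : 1 ≤ M) (hn : 1 ≤ n) (h : n ≤ M ^ 2 / 4) : idx n + 1 ≤ M := by
  by_contra hcon
  push Not at hcon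
  have h1 : M ≤ idx n := by omega
  have h2 : M ^ 2 / 4 ≤ idx n ^ 2 / 4 := Nat.div_le_div_right (Nat.pow_le_pow_left h1 2)
  have := idx_lt hn
  omega

theorem quarter (i : ℕ) : (i + 1) ^ 2 / 4 ≤ i ^ 2 / 4 + (i + 1) := by
  have h1 : (i + 1) ^ 2 ≤ i ^ 2 + 4 * (i + 1) := by ring_nf; omega
  calc (i + 1) ^ 2 / 4 ≤ (i ^ 2 + 4 * (i + 1)) / 4 := Nat.div_le_div_right h1
    _ = i ^ 2 / 4 + (i + 1) := by omega

open Classical in
theorem pigeon (J : ℕ) (hJ : 1 ≤ J) (κ : ℝ) (hκ : 0 < κ) : ∃ κ' : ℝ, 0 < κ' ∧ κ' ≤ 1 ∧ ∃ M₀ : ℕ, ∀ M : ℕ, M₀ ≤ M →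
    ∀ L : ℕ, (L : ℝ) ≤ κ' * M → ∀ P : (Fin J → ℕ) → Prop,
      κ * ((M ^ 2 / 4 : ℕ) : ℝ) ^ J ≤
        (({N ∈ Fintype.piFinset (fun _ : Fin J => Icc 1 (M ^ 2 / 4)) | P N}.card : ℕ) : ℝ) →
      κ' * (M : ℝ) ^ J ≤ (({i ∈ Fintype.piFinset (fun _ : Fin J => Icc 1 M) | ∃ N : Fin J → ℕ, P N ∧
        ∀ j, (i j) ^ 2 / 4 < N j ∧ N j + L < (i j + 1) ^ 2 / 4}.card : ℕ) : ℝ) := by
  have hJr : (1 : ℝ) ≤ J := by exact_mod_cast hJ
  obtain ⟨κ', hκ'⟩ : ∃ κ' : ℝ, κ' = min 1 (min (κ / (40 * J)) (κ / 2 / 5 ^ J)) := ⟨_, rfl⟩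
  have hκ'0 : 0 < κ' := by
    rw [hκ']
    refine lt_min one_pos (lt_min (by positivity) (by positivity))
  have hκ'1 : κ' ≤ 1 := by rw [hκ']; exact min_le_left _ _
  have hκ'2 : κ' ≤ κ / (40 * J) := by
    rw [hκ']; exact (min_le_right _ _).trans (min_le_left _ _)
  have hκ'3 : κ' ≤ κ / 2 / 5 ^ J := by
    rw [hκ']; exact (min_le_right _ _).trans (min_le_right _ _)
  obtain ⟨n₁, hn₁⟩ := exists_nat_ge (40 * J / κ)
  refine ⟨κ', hκ'0, hκ'1, n₁ + 20, fun M hM L hL P hP => ?_⟩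
  have hM20 : (20 : ℝ) ≤ M := by exact_mod_cast (by omega : 20 ≤ M)
  have hM0 : (0 : ℝ) < M := by linarith
  obtain ⟨X, hX⟩ : ∃ X : ℕ, X = M ^ 2 / 4 := ⟨_, rfl⟩
  rw [← hX] at hP
  have hX5 : (M : ℝ) ^ 2 / 5 ≤ X := by
    have h1 : M ^ 2 < 4 * (X + 1) := by
      rw [hX]
      have := Nat.lt_succ_iff.1 (Nat.lt_succ_self (M ^ 2 / 4))
      omega
    have h2 : (M : ℝ) ^ 2 < 4 * (X + 1) := by exact_mod_cast h1
    nlinarith
  have hX0 : (0 : ℝ) < X := by
    have : (0 : ℝ) < (M : ℝ) ^ 2 / 5 := by positivity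
    linarith
  -- the bad integers
  obtain ⟨Bad, hBad⟩ : ∃ Bad : Finset ℕ, Bad = (Icc 1 X).filter (fun n => (idx n + 1) ^ 2 / 4 ≤ n + L) :=
    ⟨_, rfl⟩
  have hBadc : Bad.card ≤ M * (L + 1) := by
    have hsub : Bad ⊆ (range M).biUnion (fun i => Icc ((i + 1) ^ 2 / 4 - L) ((i + 1) ^ 2 / 4)) := by
      intro n hn
      rw [hBad, mem_filter, mem_Icc] at hn
      obtain ⟨⟨h1, h2⟩, h3⟩ := hn
      rw [mem_biUnion]
      refine ⟨idx n, mem_range.2 ?_, mem_Icc.2 ⟨by omega, le_idx h1⟩⟩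
      have := idx_le (by omega : 1 ≤ M) h1 (by rw [← hX]; exact h2)
      omega
    refine (card_le_card hsub).trans (card_biUnion_le.trans ?_)
    calc ∑ i ∈ range M, (Icc ((i + 1) ^ 2 / 4 - L) ((i + 1) ^ 2 / 4)).card
        ≤ ∑ _i ∈ range M, (L + 1) := by
          apply sum_le_sum
          intro i _
          rw [Nat.card_Icc]
          omega
      _ = M * (L + 1) := by rw [sum_const, card_range, smul_eq_mul]
  -- the good tuples
  obtain ⟨G, hG⟩ : ∃ G : Finset (Fin J → ℕ), G =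
    (Fintype.piFinset (fun _ : Fin J => Icc 1 X)).filter (fun N => P N) := ⟨_, rfl⟩
  obtain ⟨G', hG'⟩ : ∃ G' : Finset (Fin J → ℕ), G' = G.filter (fun N => ∀ j, N j ∉ Bad) := ⟨_, rfl⟩
  have hG0 : κ * (X : ℝ) ^ J ≤ G.card := by rw [hG]; exact hP
  have hdiff : G ⊆ G' ∪ (univ : Finset (Fin J)).biUnion
      (fun j => Fintype.piFinset (fun j' : Fin J => if j' = j then Bad else Icc 1 X)) := by
    intro N hN
    by_cases h : ∀ j, N j ∉ Bad
    · rw [mem_union]
      left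
      rw [hG', mem_filter]
      exact ⟨hN, h⟩
    · push Not at h
      obtain ⟨j, hj⟩ := h
      rw [mem_union]
      right
      rw [mem_biUnion]
      refine ⟨j, mem_univ _, Fintype.mem_piFinset.2 fun j' => ?_⟩
      split_ifs with h1
      · rw [h1]; exact hj
      · rw [hG, mem_filter] at hN
        exact Fintype.mem_piFinset.1 hN.1 j'
  have hcard2 : G.card ≤ G'.card + J * (M * (L + 1) * X ^ (J - 1)) := by
    refine (card_le_card hdiff).trans ((card_union_le _ _).trans ?_)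
    refine Nat.add_le_add_left ?_ _
    refine card_biUnion_le.trans ?_
    calc ∑ j : Fin J, (Fintype.piFinset (fun j' : Fin J => if j' = j then Bad else Icc 1 X)).card
        ≤ ∑ _j : Fin J, (M * (L + 1) * X ^ (J - 1)) := by
          apply sum_le_sum
          intro j _
          rw [Fintype.card_piFinset, ← mul_prod_erase univ _ (mem_univ j), if_pos rfl]
          refine Nat.mul_le_mul hBadc ?_
          rw [prod_congr rfl (g := fun _ => X) (fun j' hj' => by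
            rw [if_neg (ne_of_mem_erase hj'), Nat.card_Icc]; omega), prod_const,
            card_erase_of_mem (mem_univ j), card_univ, Fintype.card_fin]
      _ = J * (M * (L + 1) * X ^ (J - 1)) := by
          rw [sum_const, card_univ, Fintype.card_fin, smul_eq_mul]
  have hG'c : κ / 2 * (X : ℝ) ^ J ≤ G'.card := by
    have h1 : (G.card : ℝ) ≤ G'.card + J * (M * (L + 1) * (X : ℝ) ^ (J - 1)) := by exact_mod_cast hcard2
    have h2 : (J : ℝ) * (M * (L + 1) * (X : ℝ) ^ (J - 1)) ≤ κ / 2 * (X : ℝ) ^ J := by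
      have h3 : (J : ℝ) * (M * (L + 1)) ≤ κ / 2 * X := by
        have h4 : 40 * J / κ ≤ M := hn₁.trans (by exact_mod_cast (by omega : n₁ ≤ M))
        rw [div_le_iff₀ hκ] at h4
        have h5 : (J : ℝ) * κ' ≤ κ / 40 := by
          calc (J : ℝ) * κ' ≤ J * (κ / (40 * J)) := by gcongr
            _ = κ / 40 := by field_simp
        calc (J : ℝ) * (M * (L + 1)) = J * M * L + J * M := by ring
          _ ≤ J * M * (κ' * M) + J * M := by gcongr
          _ = (J * κ') * M ^ 2 + J * M := by ring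
          _ ≤ κ / 40 * M ^ 2 + κ / 40 * M ^ 2 := by
              refine add_le_add (by gcongr) ?_
              nlinarith
          _ = κ / 4 * (M ^ 2 / 5) := by ring
          _ ≤ κ / 2 * X := by
              have : (0 : ℝ) ≤ (M : ℝ) ^ 2 / 5 := by positivity
              nlinarith
      calc (J : ℝ) * (M * (L + 1) * (X : ℝ) ^ (J - 1)) = (J * (M * (L + 1))) * (X : ℝ) ^ (J - 1) := by ring
        _ ≤ (κ / 2 * X) * (X : ℝ) ^ (J - 1) := by gcongr
        _ = κ / 2 * (X : ℝ) ^ (J - 1 + 1) := by rw [pow_succ]; ring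
        _ = κ / 2 * (X : ℝ) ^ J := by rw [Nat.sub_add_cancel hJ]
    linarith
  -- the indices
  have hfib : ∀ a ∈ G'.image (fun N j => idx (N j)), (G'.filter (fun N => (fun j => idx (N j)) = a)).card ≤ M ^ J := by
    intro a _
    have hsub : G'.filter (fun N => (fun j => idx (N j)) = a) ⊆
        Fintype.piFinset (fun j : Fin J => if a j + 1 ≤ M then Ioc ((a j) ^ 2 / 4) ((a j + 1) ^ 2 / 4) else ∅) := by
      intro N hN
      obtain ⟨h1, h2⟩ := mem_filter.1 hN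
      rw [hG', mem_filter, hG, mem_filter] at h1
      refine Fintype.mem_piFinset.2 fun j => ?_
      have h3 := mem_Icc.1 (Fintype.mem_piFinset.1 h1.1.1 j)
      have h4 : a j = idx (N j) := by rw [← h2]
      have h5 := idx_le (by omega : 1 ≤ M) h3.1 (by rw [← hX]; exact h3.2)
      rw [h4, if_pos h5]
      exact mem_Ioc.2 ⟨idx_lt h3.1, le_idx h3.1⟩
    refine (card_le_card hsub).trans ?_
    rw [Fintype.card_piFinset]
    calc ∏ j : Fin J, (if a j + 1 ≤ M then Ioc ((a j) ^ 2 / 4) ((a j + 1) ^ 2 / 4) else ∅).card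
        ≤ ∏ _j : Fin J, M := by
          apply prod_le_prod' 
          intro j _
          split_ifs with h
          · rw [Nat.card_Ioc]
            have := quarter (a j)
            omega
          · simp
      _ = M ^ J := by rw [prod_const, card_univ, Fintype.card_fin]
  have h1 : G'.card ≤ M ^ J * (G'.image (fun N j => idx (N j))).card :=
    card_le_mul_card_image G' (M ^ J) hfib
  have h2 : (G'.card : ℝ) ≤ (M : ℝ) ^ J * (G'.image (fun N j => idx (N j))).card := by exact_mod_cast h1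
  have h3 : (G'.image (fun N j => idx (N j))).card ≤
      ({i ∈ Fintype.piFinset (fun _ : Fin J => Icc 1 M) | ∃ N : Fin J → ℕ, P N ∧
        ∀ j, (i j) ^ 2 / 4 < N j ∧ N j + L < (i j + 1) ^ 2 / 4}).card := by
    apply card_le_card
    intro a ha
    obtain ⟨N, hN, rfl⟩ := mem_image.1 ha
    rw [hG', mem_filter, hG, mem_filter] at hN
    obtain ⟨⟨h4, h5⟩, h6⟩ := hN
    have h7 : ∀ j, 1 ≤ N j ∧ N j ≤ X := fun j => mem_Icc.1 (Fintype.mem_piFinset.1 h4 j)
    refine mem_filter.2 ⟨Fintype.mem_piFinset.2 fun j => mem_Icc.2 ⟨idx_pos (h7 j).1, ?_⟩, N, h5, fun j =>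
      ⟨idx_lt (h7 j).1, ?_⟩⟩
    · have := idx_le (by omega : 1 ≤ M) (h7 j).1 (by rw [← hX]; exact (h7 j).2)
      omega
    · by_contra hcon
      push Not at hcon
      apply h6 j
      rw [hBad, mem_filter]
      exact ⟨mem_Icc.2 (h7 j), hcon⟩
  have h4 : κ / 2 / 5 ^ J * (M : ℝ) ^ J ≤ (G'.image (fun N j => idx (N j))).card := by
    have h5 : κ / 2 * ((M : ℝ) ^ 2 / 5) ^ J ≤ (M : ℝ) ^ J * (G'.image (fun N j => idx (N j))).card := by
      refine le_trans ?_ (hG'c.trans h2)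
      gcongr
    have h6 : κ / 2 * ((M : ℝ) ^ 2 / 5) ^ J = (M : ℝ) ^ J * (κ / 2 / 5 ^ J * (M : ℝ) ^ J) := by
      rw [div_pow, ← pow_mul, mul_comm 2 J, pow_mul, sq]
      ring
    rw [h6] at h5
    exact le_of_mul_le_mul_left h5 (by positivity)
  calc κ' * (M : ℝ) ^ J ≤ κ / 2 / 5 ^ J * (M : ℝ) ^ J := by gcongr
    _ ≤ _ := h4
    _ ≤ _ := by exact_mod_cast h3

end Pool.Agent.Helper69.OP
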